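import Pool.Agent.Helper67.KPG.St2

/-!
# Project KP, chapter G: module CRA (the rule of Cramer for a singular system)
-/

set_option autoImplicit false

namespace Pool.Agent.Helper42.KPG

open Pool.Agent.Helper67.KPG

/-- as many independent rows as the rank -/
lemma rows_indep {m n r : ℕ} (M : Matrix (Fin m) (Fin n) ℂ) (h : M.rank = r) :
    ∃ I : Fin r → Fin m, LinearIndependent ℂ (fun i => M (I i)) := by
  rw [Matrix.rank_eq_finrank_span_row] at h
  subst h
  obtain ⟨f, hf, -, hl⟩ := Submodule.exists_fun_fin_finrank_span_eq ℂ (Set.range M.row)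
  choose I hI using hf
  refine ⟨I, ?_⟩
  have : (fun i => M (I i)) = f := by
    funext i
    exact hI i
  rw [this]
  exact hl

/-- a nonzero minor of size the rank -/
lemma minor {D r : ℕ} (M : Matrix (Fin D) (Fin D) ℂ) (h : M.rank = r) :
    ∃ I K : Fin r → Fin D, (M.submatrix I K).det ≠ 0 := by
  obtain ⟨I, hI⟩ := rows_indep M h
  have hr : (M.submatrix I id).rank = r := by
    have h1 : LinearIndependent ℂ (M.submatrix I id).row := hI
    have := h1.rank_matrix
    simpa using this
  have hr' : (M.submatrix I id).transpose.rank = r := by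
    rw [Matrix.rank_transpose, hr]
  obtain ⟨K, hK⟩ := rows_indep (M.submatrix I id).transpose hr'
  refine ⟨I, K, ?_⟩
  have h2 : LinearIndependent ℂ (M.submatrix I K).col := hK
  rw [Matrix.linearIndependent_cols_iff_isUnit, Matrix.isUnit_iff_isUnit_det] at h2
  exact h2.ne_zero

theorem hCRA : StCRA := by
  refine ⟨fun D M => minor M rfl, ?_⟩
  rintro D r M I K b hr hdet ⟨v, rfl⟩
  set A := M.submatrix I K with hA
  set y := A.adjugate.mulVec (fun i => (M.mulVec v) (I i)) with hy
  set w : Fin D → ℂ := ∑ k, y k • Pi.single (K k) 1 with hw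
  have hAy : A.mulVec y = A.det • (fun i => (M.mulVec v) (I i)) := by
    rw [hy, Matrix.mulVec_mulVec, Matrix.mul_adjugate, Matrix.smul_mulVec, Matrix.one_mulVec]
  -- the chosen components agree
  have hcomp : ∀ i, M.mulVec w (I i) = (A.det • M.mulVec v) (I i) := by
    intro i
    have h1 : M.mulVec w = ∑ k, y k • M.col (K k) := by
      rw [hw, Matrix.mulVec_sum]
      refine Finset.sum_congr rfl fun k _ => ?_
      rw [Matrix.mulVec_smul, Matrix.mulVec_single_one]
    have h2 : M.mulVec w (I i) = A.mulVec y i := by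
      rw [h1]
      simp only [Finset.sum_apply, Pi.smul_apply, Matrix.col_apply, smul_eq_mul, Matrix.mulVec,
        dotProduct, hA, Matrix.submatrix_apply]
      exact Finset.sum_congr rfl fun k _ => mul_comm _ _
    rw [h2, hAy]
    simp
  -- the chosen rows are independent and span the row space
  have hli : LinearIndependent ℂ (fun i => M (I i)) := by
    have h1 : LinearIndependent ℂ (fun i => A i) :=
      Matrix.linearIndependent_rows_of_det_ne_zero hdet
    let L : (Fin D → ℂ) →ₗ[ℂ] (Fin r → ℂ) := LinearMap.funLeft ℂ ℂ K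
    have h2 : (fun i => A i) = L ∘ (fun i => M (I i)) := by
      funext i k
      rfl
    rw [h2] at h1
    exact LinearIndependent.of_comp L h1
  have hspan : Submodule.span ℂ (Set.range (fun i => M (I i))) =
      Submodule.span ℂ (Set.range M.row) := by
    apply Submodule.eq_of_le_of_finrank_eq
    · apply Submodule.span_mono
      rintro _ ⟨i, rfl⟩
      exact ⟨I i, rfl⟩
    · rw [← Matrix.rank_eq_finrank_span_row, hr]
      have := finrank_span_eq_card hli
      simpa using this
  funext j
  set c : Fin D → ℂ := w - A.det • v with hc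
  have hM : ∀ j, M.mulVec w j - (A.det • M.mulVec v) j = M j ⬝ᵥ c := by
    intro j
    rw [hc, dotProduct_sub, dotProduct_smul]
    rfl
  let S : Submodule ℂ (Fin D → ℂ) :=
    { carrier := {x | x ⬝ᵥ c = 0}
      add_mem' := by
        intro a b ha hb
        simp only [Set.mem_setOf_eq] at ha hb ⊢
        rw [add_dotProduct, ha, hb, add_zero]
      zero_mem' := by simp
      smul_mem' := by
        intro t a ha
        simp only [Set.mem_setOf_eq] at ha ⊢
        rw [smul_dotProduct, ha, smul_zero] }
  have hS : Submodule.span ℂ (Set.range (fun i => M (I i))) ≤ S := by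
    rw [Submodule.span_le]
    rintro _ ⟨i, rfl⟩
    show M (I i) ⬝ᵥ c = 0
    rw [← hM, hcomp, sub_self]
  have hj : M j ∈ Submodule.span ℂ (Set.range M.row) :=
    Submodule.subset_span ⟨j, rfl⟩
  rw [← hspan] at hj
  have h3 : M j ⬝ᵥ c = 0 := hS hj
  rw [← hM] at h3
  exact sub_eq_zero.mp h3

end Pool.Agent.Helper42.KPG
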