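import Pool.Agent.Helper67.KPG.St2
import Pool.Agent.Helper67.KPG.St3

/-!
# Project KP, chapter G: module KKS (the symplectic form in the chart)
-/

set_option autoImplicit false

namespace Pool.Agent.Helper42.KPG

open Pool.Agent.Helper67.KPG Pool.Agent.Helper67.NO Pool.Agent.Helper52.KP

universe u

section

variable {g : Type u} [LieRing g] [LieAlgebra ℂ g] [FiniteDimensional ℂ g]

/-- invariance of the Killing form -/
lemma kinv (x y z : g) : killingForm ℂ g ⁅x, y⁆ z = killingForm ℂ g x ⁅y, z⁆ :=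
  LieModule.traceForm_apply_lie_apply ℂ g g x y z

lemma kcomm (x y : g) : killingForm ℂ g x y = killingForm ℂ g y x :=
  LieModule.traceForm_comm ℂ g g x y

/-- if `[z', b e]` is in `g_(≥ 2)` then `z'` is in `g_(≥ 0)` -/
lemma ge0_of {e h f : g} {N : ℕ} {pr : ℤ → g →ₗ[ℂ] g} (hF : SlF e h f N pr)
    (hE : SlE e h f N pr) (hG : GPs g) {b : g →ₗ[ℂ] g} (hb : GP (ge pr 0) b) {z' v : g}
    (hz : ⁅z', b e⁆ = v) (hv : v ∈ ge pr 2) : z' ∈ ge pr 0 := by
  obtain ⟨b', hb', h1, h2⟩ := hG.inv _ b hb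
  have hs2 : ∀ w : g →ₗ[ℂ] g, GP (ge pr 0) w → ∀ x ∈ ge pr 2, w x ∈ ge pr 2 := by
    intro w hw x hx
    refine hG.sub _ (ge pr 2) ?_ w hw x hx
    intro a ha c hc
    have := hF.brge 0 2 a c ha hc
    simpa using this
  have hs0 : ∀ w : g →ₗ[ℂ] g, GP (ge pr 0) w → ∀ x ∈ ge pr 0, w x ∈ ge pr 0 := by
    intro w hw x hx
    refine hG.sub _ (ge pr 0) ?_ w hw x hx
    intro a ha c hc
    have := hF.brge 0 0 a c ha hc
    simpa using this
  have hbb' : ∀ x, b (b' x) = x := fun x => LinearMap.congr_fun h1 x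
  have hb'b : ∀ x, b' (b x) = x := fun x => LinearMap.congr_fun h2 x
  have h3 : ⁅b' z', e⁆ = b' v := by
    have := hG.lie _ b' hb' z' (b e)
    rw [hz, hb'b] at this
    exact this.symm
  obtain ⟨x, hx, hxe⟩ := hE.surj (b' v) (hs2 b' hb' v hv)
  have h4 : ⁅e, b' z' - x⁆ = 0 := by
    rw [← lie_skew, sub_lie, h3, hxe, sub_self, neg_zero]
  have h5 := hE.ker0 _ h4
  have h6 : b' z' ∈ ge pr 0 := by
    have := (ge pr 0).add_mem h5 hx
    simpa using this
  have h7 := hs0 b hb _ h6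
  rwa [hbb'] at h7

end

theorem hKKS (hIMM : StIMM.{u}) (hBAS : StBAS.{u}) (hBAE : StBAE.{u}) (hGPF : StGPF.{u})
    (hPHI : StPHI.{u}) : StKKS.{u} := by
  intro g _ _ _ _ e h f N pr hSl m w E hBs b z hb hy Z hZ
  have hF := hBAS g e h f N pr hSl
  have hE := hBAE g e h f N pr hSl
  have hG := hGPF g
  obtain ⟨hli, hsp⟩ := hIMM g e h f N pr hSl m w E hBs b z hb hy
  have hyge : yy w E z ∈ ge pr 2 := (hPHI g e h f N pr hSl m w E hBs).2.1 z
  set x := phi w E z with hx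
  set y := yy w E z with hydef
  set u := uu w E z with hu
  have hxy : x = expAd u y := rfl
  have hexpT : ∀ v : g, GP (⊤ : Submodule ℂ g) (expAd v) := fun v =>
    hG.exp _ v Submodule.mem_top
  have hlie : ∀ v s t : g, expAd v ⁅s, t⁆ = ⁅expAd v s, expAd v t⁆ := fun v =>
    hG.lie _ _ (hexpT v)
  have hkil : ∀ v s t : g, killingForm ℂ g (expAd v s) (expAd v t) = killingForm ℂ g s t :=
    fun v => hG.kil _ _ (hexpT v)
  -- the tangent vectors
  have hT0 : ∀ i, w i = 0 → tv N w E z i = ⁅expAd u (th N u (E i)), x⁆ := by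
    intro i hi
    unfold tv
    rw [if_pos hi]
  have hT1 : ∀ i, w i ≠ 0 → tv N w E z i = expAd u (E i) := by
    intro i hi
    unfold tv
    rw [if_neg hi]
  have hw1 : ∀ i, w i ≠ 0 → w i = 1 := fun i hi => (hBs.w01 i).resolve_left hi
  -- first formula
  have hA : ∀ i (Y : g), killingForm ℂ g x ⁅Z i, Y⁆ = - killingForm ℂ g (tv N w E z i) Y := by
    intro i Y
    rw [← hZ i, ← kinv, ← lie_skew, map_neg, LinearMap.neg_apply]
  have hanti : ∀ i j, killingForm ℂ g x ⁅Z i, Z j⁆ = - killingForm ℂ g x ⁅Z j, Z i⁆ := by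
    intro i j
    rw [← lie_skew, map_neg]
  have hB : ∀ i j, w i = 0 → killingForm ℂ g x ⁅Z i, Z j⁆ =
      killingForm ℂ g (expAd u (th N u (E i))) (tv N w E z j) := by
    intro i j hi
    rw [hA, hT0 i hi, kinv, ← lie_skew x (Z j), map_neg, neg_neg, hZ j]
  have h00 : ∀ i j, w i = 0 → w j = 0 → killingForm ℂ g x ⁅Z i, Z j⁆ =
      killingForm ℂ g y ⁅th N u (E i), th N u (E j)⁆ := by
    intro i j hi hj
    rw [hB i j hi, hT0 j hj, ← kinv, kcomm, hxy, ← hlie, hkil]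
  have h01 : ∀ i j, w i = 0 → w j ≠ 0 → killingForm ℂ g x ⁅Z i, Z j⁆ =
      killingForm ℂ g (E j) (th N u (E i)) := by
    intro i j hi hj
    rw [hB i j hi, hT1 j hj, hkil, kcomm]
  have h11 : ∀ i j, w i ≠ 0 → w j ≠ 0 → killingForm ℂ g x ⁅Z i, Z j⁆ = 0 := by
    intro i j hi hj
    rw [hA, hT1 i hi]
    have h1 : killingForm ℂ g (expAd u (E i)) (Z j) = killingForm ℂ g (E i) (expAd (-u) (Z j)) := by
      rw [← hkil (-u) (expAd u (E i)) (Z j), (hG.neg u (E i)).1]
    rw [h1, neg_eq_zero]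
    have h2 : ⁅expAd (-u) (Z j), b e⁆ = E j := by
      have h3 : expAd (-u) ⁅Z j, x⁆ = E j := by
        rw [hZ j, hT1 j hj, (hG.neg u (E j)).1]
      rw [hlie, hxy, (hG.neg u y).1, hy] at h3
      exact h3
    have h4 : expAd (-u) (Z j) ∈ ge pr 0 := ge0_of hF hE hG hb h2 (hBs.m1 j (hw1 j hj))
    exact hF.kge 2 0 _ _ (hBs.m1 i (hw1 i hi)) h4 (by norm_num)
  have hom : ∀ i j, killingForm ℂ g x ⁅Z i, Z j⁆ = om N w E z i j := by
    intro i j
    unfold om
    by_cases hi : w i = 0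
    · by_cases hj : w j = 0
      · rw [if_pos hi, if_pos hj, h00 i j hi hj]
      · rw [if_pos hi, if_neg hj, h01 i j hi hj]
    · by_cases hj : w j = 0
      · rw [if_neg hi, if_pos hj, hanti, h01 j i hj hi]
      · rw [if_neg hi, if_neg hj, h11 i j hi hj]
  refine ⟨hom, ?_⟩
  intro hdet
  obtain ⟨c, hc0, hc⟩ := Matrix.exists_mulVec_eq_zero_iff.mpr hdet
  set Y : g := ∑ j, c j • Z j with hY
  have h1 : ∀ i, killingForm ℂ g (tv N w E z i) Y = 0 := by
    intro i
    have h2 : killingForm ℂ g x ⁅Z i, Y⁆ = 0 := by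
      have h3 := congrFun hc i
      simp only [Matrix.mulVec, dotProduct, Pi.zero_apply] at h3
      rw [hY, lie_sum, map_sum, ← h3]
      refine Finset.sum_congr rfl fun j _ => ?_
      rw [lie_smul, map_smul, hom i j, smul_eq_mul, mul_comm]
    rw [hA] at h2
    exact neg_eq_zero.mp h2
  have h2 : ∀ v ∈ Submodule.span ℂ (Set.range (tv N w E z)), killingForm ℂ g v Y = 0 := by
    intro v hv
    induction hv using Submodule.span_induction with
    | mem v hv =>
      obtain ⟨i, rfl⟩ := hv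
      exact h1 i
    | zero => simp
    | add a b _ _ ha hb => rw [map_add, LinearMap.add_apply, ha, hb, add_zero]
    | smul t a _ ha => rw [map_smul, LinearMap.smul_apply, ha, smul_zero]
  rw [hsp] at h2
  have h3 : ∀ X : g, killingForm ℂ g X ⁅x, Y⁆ = 0 := by
    intro X
    have h4 := h2 ⁅x, X⁆ ⟨X, rfl⟩
    rw [← lie_skew, map_neg, LinearMap.neg_apply, neg_eq_zero, kinv] at h4
    exact h4
  have h4 : ⁅x, Y⁆ = 0 := (LieAlgebra.IsKilling.killingForm_nondegenerate ℂ g).2 _ h3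
  have h5 : ∑ j, c j • tv N w E z j = 0 := by
    have h6 : ⁅Y, x⁆ = 0 := by rw [← lie_skew, h4, neg_zero]
    rw [hY, sum_lie] at h6
    rw [← h6]
    refine Finset.sum_congr rfl fun j _ => ?_
    rw [smul_lie, hZ j]
  apply hc0
  funext j
  exact Fintype.linearIndependent_iff.mp hli c h5 j

end Pool.Agent.Helper42.KPG
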